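import Pool.Agent.helper44.NLT.Spec

/-! # nlt:CSU (MP_70a088_an): the image of the semiconjugacy contains a neighbourhood of infinity -/

set_option autoImplicit false

open Complex Metric Set Filter Topology MeasureTheory MPS
open Pool.Agent.helper98.ILF Pool.Agent.helper16.Multibrot

noncomputable section

namespace NLT

theorem CSU : CSU_stmt := by
  intro n c c' Ψ h
  obtain ⟨B, R, hBR⟩ := h.nrm
  set B0 : ℝ := max B 1 with hB0
  set R0 : ℝ := max R (3 + ‖c‖) with hR0
  have hB1 : 1 ≤ B0 := le_max_right _ _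
  have hBB : B ≤ B0 := le_max_left _ _
  have hRR : R ≤ R0 := le_max_left _ _
  have hRc : 3 + ‖c‖ ≤ R0 := le_max_right _ _
  refine ⟨R0 + 7 * B0, fun w hw => ?_⟩
  have hbig : ∀ z ∈ ball w (7 * B0), R0 < ‖z‖ := by
    intro z hz
    rw [mem_ball, dist_eq_norm] at hz
    have h1 : ‖w‖ ≤ ‖z‖ + ‖z - w‖ := by
      have := norm_sub_le z (z - w)
      simpa using this
    linarith
  have hout : ∀ z ∈ ball w (7 * B0), z ∉ filled n c := by
    intro z hz hz'
    have h1 := filled_subset n c hz'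
    rw [mem_closedBall_zero_iff] at h1
    have h2 := hbig z hz
    linarith
  have hest : ∀ z ∈ ball w (7 * B0), ‖Ψ z - z‖ ≤ B0 := by
    intro z hz
    exact le_trans (hBR z (by linarith [hbig z hz])) hBB
  have hdiff : DifferentiableOn ℂ Ψ (ball w (7 * B0)) := h.dif.mono hout
  have hsub : closedBall w (6 * B0) ⊆ ball w (7 * B0) := closedBall_subset_ball (by linarith)
  have hw0 : w ∈ ball w (7 * B0) := mem_ball_self (by linarith)
  have hsph : ∀ z ∈ sphere w (6 * B0), 4 * B0 ≤ ‖Ψ z - Ψ w‖ := by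
    intro z hz
    have hz' : z ∈ ball w (7 * B0) := hsub (sphere_subset_closedBall hz)
    rw [mem_sphere, dist_eq_norm] at hz
    have h1 := hest z hz'
    have h2 := hest w hw0
    have h3 : ‖z - w‖ ≤ ‖Ψ z - Ψ w‖ + ‖Ψ z - z‖ + ‖Ψ w - w‖ := by
      have e : z - w = (Ψ z - Ψ w) - (Ψ z - z) + (Ψ w - w) := by ring
      calc ‖z - w‖ = ‖(Ψ z - Ψ w) - (Ψ z - z) + (Ψ w - w)‖ := by rw [← e]
        _ ≤ ‖(Ψ z - Ψ w) - (Ψ z - z)‖ + ‖Ψ w - w‖ := norm_add_le _ _
        _ ≤ ‖Ψ z - Ψ w‖ + ‖Ψ z - z‖ + ‖Ψ w - w‖ := by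
            have := norm_sub_le (Ψ z - Ψ w) (Ψ z - z)
            linarith
    linarith
  have hcl : DiffContOnCl ℂ Ψ (ball w (6 * B0)) :=
    (hdiff.mono hsub).diffContOnCl_ball subset_rfl
  have hfr : ∃ᶠ z in 𝓝 w, Ψ z ≠ Ψ w := by
    intro hev
    have hev' : Ψ =ᶠ[𝓝 w] fun _ => Ψ w := by
      filter_upwards [hev] with z hz
      simpa using hz
    have han : AnalyticOnNhd ℂ Ψ (ball w (7 * B0)) := hdiff.analyticOnNhd isOpen_ball
    have heq := han.eqOn_of_preconnected_of_eventuallyEq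
      (analyticOnNhd_const (v := Ψ w)) (convex_ball w _).isPreconnected hw0 hev'
    have hz : (w + ((6 * B0 : ℝ) : ℂ)) ∈ sphere w (6 * B0) := by
      rw [mem_sphere, dist_eq_norm, add_sub_cancel_left, Complex.norm_real, Real.norm_eq_abs,
        abs_of_nonneg (by linarith)]
    have h1 := hsph _ hz
    have h2 : Ψ (w + ((6 * B0 : ℝ) : ℂ)) = Ψ w := heq (hsub (sphere_subset_closedBall hz))
    rw [h2, sub_self, norm_zero] at h1
    linarith
  have himg := hcl.ball_subset_image_closedBall (by linarith) hsph hfr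
  have hmem : w ∈ ball (Ψ w) (4 * B0 / 2) := by
    rw [mem_ball, dist_eq_norm, norm_sub_rev]
    have := hest w hw0
    linarith
  obtain ⟨z, hz, hzw⟩ := himg hmem
  exact ⟨z, hout z (hsub hz), hzw⟩

end NLT
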